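import Pool.Agent.TH716.C3.Main
import Pool.Agent.TH716.C3.P1a
import Pool.Agent.TH716.C3.P1b
import Pool.Agent.TH111.J515
import Pool.Agent.TH480.J518
import Pool.Agent.TH902.J519
import Pool.Agent.TH142.J520
import Pool.Agent.TH142.J521
import Pool.Agent.TH142.J522
import Pool.Agent.TH515.J523
import Pool.Agent.TH111.J524
import Pool.Agent.TH25.J525
import Pool.Agent.TH480.J526

/-!
# Contractibility of finite simplicial complexes of dimension at most three is undecidable

Proof in short. Let `⟨x₁,...,xₘ | R⟩` be a finitely presented group with unsolvable word problem.
From a word `w` one computes a finite presentation `⟨v | k⟩` with relators `(g h)⁻¹ h (g h) = h²`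
(one for each generator `h`, `g` a self-map of the set of generators) and finitely many words
`r₁,...,r_p` such that the group `T` with generators `v` and these relators in which all `r_j` are
made central is trivial if `w = 1`, and such that a quotient of it in which all `r_j` are trivial
is nontrivial if `w ≠ 1`. The presentation complex `K` of `⟨v | k⟩` has no homology. Let `L` be the
product of `K` with a wedge of `p` circles, of dimension three, with a disc glued along (the `j`-th
circle times a point) * `r_j` for each `j`. If `T` is trivial then the inclusion of `K` (level `0`)
in `L` is null-homotopic: the tautological cocycle is trivial because the holonomies of the circles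
of `K` satisfy the relations of `T` in `π₁(L)`; obstructions in dimension two disappear because `K`
has no homology. Then `L` is a retract of the complex obtained by replacing `K` by a cone, which is
contractible. If `T` has the nontrivial quotient above, `L` has a nontrivial cocycle.
-/

set_option autoImplicit false

namespace Pool.Agent.Results.MP_4c90a8_lc.ContractibilityDimThree

open Pool.Agent.TH716.C3

/-- No algorithm decides contractibility for all finite simplicial complexes of dimension at most
three: there is no computable function `f` such that for every list `L` of simplices (lists of
vertices, natural numbers) with at most four vertices each, `f L = true` if and only if the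
geometric realization of the complex of all nonempty subsets of members of `L` is contractible. -/
theorem result : ¬ ∃ f : List (List ℕ) → Bool, Computable f ∧ ∀ L : List (List ℕ),
    (∀ s ∈ L, s.toFinset.card ≤ 4) →
    (f L = true ↔ ContractibleSpace {x : ℕ → ℝ // ∃ s ∈ L,
      (∀ i, 0 ≤ x i) ∧ (∀ i, i ∉ s → x i = 0) ∧ ∑ i ∈ s.toFinset, x i = 1}) :=
  main (p1_of p1a (p1b Pool.Agent.TH480.J518.result)) Pool.Agent.TH142.J521.result.1
    Pool.Agent.TH142.J521.result.2.1 Pool.Agent.TH142.J521.result.2.2
    Pool.Agent.TH142.J522.result.2 Pool.Agent.TH480.J518.result Pool.Agent.TH142.J520.result
    Pool.Agent.TH902.J519.result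
    (Pool.Agent.TH515.J523.result Pool.Agent.TH142.J521.result.1).1
    (Pool.Agent.TH515.J523.result Pool.Agent.TH142.J521.result.1).2.1
    Pool.Agent.TH111.J515.result Pool.Agent.TH142.J522.result.1
    (Pool.Agent.TH515.J523.result Pool.Agent.TH142.J521.result.1).2.2
    Pool.Agent.TH111.J524.result.1 Pool.Agent.TH111.J524.result.2
    Pool.Agent.TH25.J525.result Pool.Agent.TH480.J526.result

end Pool.Agent.Results.MP_4c90a8_lc.ContractibilityDimThree
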